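import Pool.Graph.R_pool_sql_team_seeded_3dad9d7b.NH13.UV.Stm
import Pool.Graph.R_pool_sql_team_seeded_1acbe0a2.Y818.FV.LOGD
import Pool.Graph.R_seed8.H370R2.Local

/-!
# The partial fractions of `Y'/Y`

The open lemma `S_PFC` of the library project `NH13.UV`: the logarithmic derivative of an entire
function of order at most `3/2` is, up to a constant, the sum of its principal parts, where the series
of the differences converges absolutely.
-/

set_option autoImplicit false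

namespace Pool.Agent.H862.VP

open Complex Filter Topology Metric Set
open Pool.Agent.NH13.UV
open Pool.Agent.Y818.FV

/-- a positive number `t ≥ 1` against the powers of two -/
theorem dyad {t : ℝ} (ht : 1 ≤ t) {N : ℕ} (hN : t ≤ 2 ^ N) :
    1 / t ^ 2 ≤ 4 * ∑ k ∈ Finset.range (N + 1), if t ≤ 2 ^ k then (1 / 4 : ℝ) ^ k else 0 := by
  classical
  have hex : ∃ k : ℕ, t ≤ 2 ^ k := ⟨N, hN⟩
  set k := Nat.find hex with hk
  have h1 : t ≤ 2 ^ k := Nat.find_spec hex
  have hkN : k ≤ N := Nat.find_min' hex hN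
  have h2 : (2 : ℝ) ^ k ≤ 2 * t := by
    rcases Nat.eq_zero_or_pos k with h0 | h0
    · rw [h0]; norm_num; linarith
    · have h3 := Nat.find_min hex (m := k - 1) (by omega)
      push Not at h3
      have h4 : (2 : ℝ) ^ k = 2 * 2 ^ (k - 1) := by
        rw [← pow_succ']
        congr 1
        omega
      rw [h4]
      linarith
  have h3 : (1 / 4 : ℝ) ^ k ≤ ∑ k ∈ Finset.range (N + 1), if t ≤ 2 ^ k then (1 / 4 : ℝ) ^ k else 0 := by
    have := Finset.single_le_sum (f := fun k : ℕ => if t ≤ 2 ^ k then (1 / 4 : ℝ) ^ k else 0)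
      (fun i _ => by
        show (0 : ℝ) ≤ if t ≤ 2 ^ i then (1 / 4 : ℝ) ^ i else 0
        split_ifs <;> positivity) (Finset.mem_range.2 (Nat.lt_succ_of_le hkN))
    simpa [h1] using this
  have h4 : 1 / t ^ 2 ≤ 4 * (1 / 4 : ℝ) ^ k := by
    have e : (4 : ℝ) * (1 / 4 : ℝ) ^ k = 1 / ((2 ^ k / 2) ^ 2) := by
      have : (1 / 4 : ℝ) ^ k = 1 / ((2 : ℝ) ^ k) ^ 2 := by
        rw [← pow_mul, mul_comm k 2, pow_mul, one_div_pow]
        norm_num
      rw [this]
      have : (2 : ℝ) ^ k ≠ 0 := by positivity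
      field_simp
      norm_num
    rw [e]
    apply one_div_le_one_div_of_le (by positivity)
    gcongr
    linarith
  linarith

/-- the weights `(1 + ‖u‖)^(-2)` of the zeros -/
theorem sum_le {F : ℂ → ℂ} (hF : Differentiable ℂ F) (h0 : F 0 ≠ 0) {K : ℝ} (hK : 0 < K)
    (hb : ∀ z, ‖F z‖ ≤ Real.exp (K * (1 + ‖z‖) ^ (3 / 2 : ℝ))) :
    ∃ C : ℝ, ∀ S : Finset ℂ,
      ∑ u ∈ S, (analyticOrderNatAt F u : ℝ) * (1 / (1 + ‖u‖) ^ 2) ≤ C := by
  classical
  -- the number of zeros in a ball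
  obtain ⟨A, hA⟩ : ∃ A : ℝ, A = (K * 27 + |Real.log ‖F 0‖|) / Real.log 2 := ⟨_, rfl⟩
  have hl2 : 0 < Real.log 2 := Real.log_pos (by norm_num)
  have hA0 : 0 ≤ A := by rw [hA]; positivity
  have hcount : ∀ (k : ℕ) (S : Finset ℂ), (∀ u ∈ S, 1 + ‖u‖ ≤ 2 ^ k) →
      ∑ u ∈ S, (analyticOrderNatAt F u : ℝ) ≤ A * ((2 : ℝ) ^ k) ^ (3 / 2 : ℝ) := by
    intro k S hS
    obtain ⟨r, hr⟩ : ∃ r : ℝ, r = (2 : ℝ) ^ k := ⟨_, rfl⟩
    have hr1 : 1 ≤ r := by rw [hr]; exact one_le_pow₀ (by norm_num)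
    have hM : 1 ≤ Real.exp (K * (1 + 2 * r) ^ (3 / 2 : ℝ)) := by
      exact Real.one_le_exp (by positivity)
    have h1 := H370.Loc.jensen_mult (f := F) (c := 0) (r := r) (R := 2 * r)
      (M := Real.exp (K * (1 + 2 * r) ^ (3 / 2 : ℝ))) (by linarith) (by linarith) hM
      (fun z _ => hF.analyticAt z) h0 (fun z hz => (hb z).trans (Real.exp_le_exp.2 (by
        rw [mem_closedBall_zero_iff] at hz
        gcongr))) S (fun u hu => by
        rw [mem_closedBall_zero_iff]
        have := hS u hu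
        rw [← hr] at this
        linarith)
    have h2 : Real.log (2 * r / r) = Real.log 2 := by
      rw [mul_div_assoc, div_self (by linarith), mul_one]
    rw [h2, Real.log_div (Real.exp_pos _).ne' (norm_ne_zero_iff.2 h0), Real.log_exp] at h1
    rw [← hr]
    refine h1.trans ?_
    rw [hA, div_mul_eq_mul_div]
    apply div_le_div_of_nonneg_right _ hl2.le
    have h3 : (1 + 2 * r) ^ (3 / 2 : ℝ) ≤ 27 * r ^ (3 / 2 : ℝ) := by
      calc (1 + 2 * r) ^ (3 / 2 : ℝ) ≤ (3 * r) ^ (3 / 2 : ℝ) :=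
            Real.rpow_le_rpow (by positivity) (by linarith) (by norm_num)
        _ = 3 ^ (3 / 2 : ℝ) * r ^ (3 / 2 : ℝ) := Real.mul_rpow (by norm_num) (by linarith)
        _ ≤ 27 * r ^ (3 / 2 : ℝ) := by
            apply mul_le_mul_of_nonneg_right _ (by positivity)
            calc (3 : ℝ) ^ (3 / 2 : ℝ) ≤ 3 ^ (3 : ℝ) :=
                  Real.rpow_le_rpow_of_exponent_le (by norm_num) (by norm_num)
              _ = 27 := by norm_num
    have h4 : 1 ≤ r ^ (3 / 2 : ℝ) := Real.one_le_rpow hr1 (by norm_num)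
    have h5 : -Real.log ‖F 0‖ ≤ |Real.log ‖F 0‖| * r ^ (3 / 2 : ℝ) := by
      have h6 := neg_le_abs (Real.log ‖F 0‖)
      have h7 := abs_nonneg (Real.log ‖F 0‖)
      nlinarith
    nlinarith
  refine ⟨4 * (A * ∑' k : ℕ, ((2 : ℝ) ^ (-(1 / 2) : ℝ)) ^ k), fun S => ?_⟩
  obtain ⟨N, hN⟩ : ∃ N : ℕ, ∀ u ∈ S, 1 + ‖u‖ ≤ 2 ^ N := by
    obtain ⟨B, hB⟩ := (S.finite_toSet.image norm).bddAbove
    obtain ⟨N, hN⟩ := pow_unbounded_of_one_lt (1 + B) (by norm_num : (1 : ℝ) < 2)
    exact ⟨N, fun u hu => by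
      have := hB (Set.mem_image_of_mem _ hu)
      linarith⟩
  have hq : ((2 : ℝ) ^ (-(1 / 2) : ℝ)) < 1 :=
    Real.rpow_lt_one_of_one_lt_of_neg (by norm_num) (by norm_num)
  have hq0 : 0 ≤ ((2 : ℝ) ^ (-(1 / 2) : ℝ)) := by positivity
  have hsum : Summable fun k : ℕ => ((2 : ℝ) ^ (-(1 / 2) : ℝ)) ^ k :=
    summable_geometric_of_lt_one hq0 hq
  calc ∑ u ∈ S, (analyticOrderNatAt F u : ℝ) * (1 / (1 + ‖u‖) ^ 2)
      ≤ ∑ u ∈ S, (analyticOrderNatAt F u : ℝ) *
          (4 * ∑ k ∈ Finset.range (N + 1), if 1 + ‖u‖ ≤ 2 ^ k then (1 / 4 : ℝ) ^ k else 0) := by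
        refine Finset.sum_le_sum fun u hu => ?_
        apply mul_le_mul_of_nonneg_left _ (Nat.cast_nonneg _)
        exact dyad (by have := norm_nonneg u; linarith) (hN u hu)
    _ = 4 * ∑ k ∈ Finset.range (N + 1), (1 / 4 : ℝ) ^ k *
          ∑ u ∈ S with 1 + ‖u‖ ≤ 2 ^ k, (analyticOrderNatAt F u : ℝ) := by
        simp_rw [Finset.mul_sum, Finset.sum_filter]
        rw [Finset.sum_comm]
        refine Finset.sum_congr rfl fun k _ => ?_
        refine Finset.sum_congr rfl fun u _ => ?_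
        split_ifs <;> ring
    _ ≤ 4 * ∑ k ∈ Finset.range (N + 1), A * ((2 : ℝ) ^ (-(1 / 2) : ℝ)) ^ k := by
        apply mul_le_mul_of_nonneg_left _ (by norm_num)
        refine Finset.sum_le_sum fun k _ => ?_
        have h1 := hcount k (S.filter fun u => 1 + ‖u‖ ≤ 2 ^ k) (fun u hu => (Finset.mem_filter.1 hu).2)
        have e : (1 / 4 : ℝ) ^ k * (A * ((2 : ℝ) ^ k) ^ (3 / 2 : ℝ)) =
            A * ((2 : ℝ) ^ (-(1 / 2) : ℝ)) ^ k := by
          have e1 : ((2 : ℝ) ^ k) ^ (3 / 2 : ℝ) = ((2 : ℝ) ^ (3 / 2 : ℝ)) ^ k := by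
            rw [← Real.rpow_natCast, ← Real.rpow_mul (by norm_num), mul_comm,
              Real.rpow_mul (by norm_num), Real.rpow_natCast]
          have e2 : (1 / 4 : ℝ) * (2 : ℝ) ^ (3 / 2 : ℝ) = (2 : ℝ) ^ (-(1 / 2) : ℝ) := by
            have : (1 / 4 : ℝ) = (2 : ℝ) ^ (-2 : ℝ) := by
              rw [Real.rpow_neg (by norm_num), Real.rpow_two]
              norm_num
            rw [this, ← Real.rpow_add (by norm_num)]
            norm_num
          rw [e1, ← e2, mul_pow]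
          ring
        rw [← e]
        exact mul_le_mul_of_nonneg_left h1 (by positivity)
    _ ≤ 4 * (A * ∑' k : ℕ, ((2 : ℝ) ^ (-(1 / 2) : ℝ)) ^ k) := by
        rw [← Finset.mul_sum]
        gcongr
        exact hsum.sum_le_tsum _ (fun k _ => by positivity)

/-- **UV-7**: the partial fractions of `Y'/Y` -/
theorem t_PFC : S_PFC := by
  classical
  intro Y hY _ ⟨K, hK, hgr⟩ _ z w hz hw
  -- translation to the point `z`
  have hsh : ∀ u : ℂ, HasDerivAt (fun v : ℂ => v + z) 1 u := fun u => (hasDerivAt_id u).add_const z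
  obtain ⟨F, hFdef⟩ : ∃ F : ℂ → ℂ, F = fun v => Y (v + z) := ⟨_, rfl⟩
  have hF : Differentiable ℂ F := by
    rw [hFdef]
    exact hY.comp (differentiable_id.add_const z)
  have hF0 : F 0 ≠ 0 := by
    rw [hFdef]
    simpa using hz
  have hord : ∀ u, analyticOrderNatAt F u = analyticOrderNatAt Y (u + z) := by
    intro u
    have h1 := analyticOrderAt_comp_of_deriv_ne_zero (f := Y) (g := fun v : ℂ => v + z) (z₀ := u)
      (by fun_prop) (by rw [(hsh u).deriv]; exact one_ne_zero)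
    rw [hFdef]
    unfold analyticOrderNatAt
    congr 1
  have hlog : ∀ u, logDeriv F u = logDeriv Y (u + z) := by
    intro u
    have h1 := logDeriv_comp (f := Y) (g := fun v : ℂ => v + z) (x := u) (hY _)
      (hsh u).differentiableAt
    rw [(hsh u).deriv, mul_one] at h1
    rw [hFdef]
    exact h1
  obtain ⟨K', hK'⟩ : ∃ K' : ℝ, K' = K * (1 + ‖z‖) ^ (3 / 2 : ℝ) := ⟨_, rfl⟩
  have hK'0 : 0 < K' := by rw [hK']; positivity
  have hgr' : ∀ v, ‖F v‖ ≤ Real.exp (K' * (1 + ‖v‖) ^ (3 / 2 : ℝ)) := by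
    intro v
    rw [hFdef]
    refine (hgr _).trans (Real.exp_le_exp.2 ?_)
    rw [hK', mul_assoc, ← Real.mul_rpow (by positivity) (by positivity)]
    have h2 : 1 + ‖v + z‖ ≤ (1 + ‖z‖) * (1 + ‖v‖) := by
      have h3 := norm_add_le v z
      have h4 : 0 ≤ ‖z‖ * ‖v‖ := by positivity
      linarith
    gcongr
  -- the terms
  obtain ⟨g, hg⟩ : ∃ g : ℂ → ℂ, g = fun a =>
    (analyticOrderNatAt Y a : ℂ) * (1 / (z - a) - 1 / (w - a)) := ⟨_, rfl⟩
  obtain ⟨C, hC⟩ := sum_le hF hF0 hK'0 hgr'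
  -- the zeros near `z` and `w`, far away
  obtain ⟨d, hd⟩ : ∃ d : ℝ, d = ‖w - z‖ := ⟨_, rfl⟩
  have hd0 : 0 ≤ d := by rw [hd]; exact norm_nonneg _
  have hterm : ∀ a : ℂ, 2 * d + 1 ≤ ‖a - z‖ →
      ‖g a‖ ≤ (8 * d) * ((analyticOrderNatAt F (a - z) : ℝ) * (1 / (1 + ‖a - z‖) ^ 2)) := by
    intro a ha
    have h1 : 0 < ‖a - z‖ := by linarith
    have h2 : ‖a - z‖ / 2 ≤ ‖w - a‖ := by
      have h3 : ‖a - z‖ ≤ ‖w - a‖ + ‖w - z‖ := by
        have e : a - z = -(w - a) + (w - z) := by ring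
        rw [e]
        refine (norm_add_le _ _).trans ?_
        rw [norm_neg]
      rw [← hd] at h3
      linarith
    have h3 : z - a ≠ 0 := by
      intro h
      rw [← norm_neg, neg_sub, h, norm_zero] at h1
      exact lt_irrefl _ h1
    have h4 : w - a ≠ 0 := by
      intro h
      rw [h, norm_zero] at h2
      linarith
    have h5 : ‖z - a‖ = ‖a - z‖ := norm_sub_rev _ _
    rw [hg]
    simp only
    rw [hord, sub_add_cancel, norm_mul, Complex.norm_natCast]
    have e : 1 / (z - a) - 1 / (w - a) = (w - z) / ((z - a) * (w - a)) := by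
      field_simp
      ring
    rw [e, norm_div, norm_mul, h5, ← hd]
    have h6 : d / (‖a - z‖ * ‖w - a‖) ≤ 8 * d * (1 / (1 + ‖a - z‖) ^ 2) := by
      have h7 : (1 + ‖a - z‖) ^ 2 / 8 ≤ ‖a - z‖ * ‖w - a‖ := by
        have h8 : ‖a - z‖ * (‖a - z‖ / 2) ≤ ‖a - z‖ * ‖w - a‖ :=
          mul_le_mul_of_nonneg_left h2 h1.le
        nlinarith
      calc d / (‖a - z‖ * ‖w - a‖) ≤ d / ((1 + ‖a - z‖) ^ 2 / 8) :=
            div_le_div_of_nonneg_left hd0 (by positivity) h7
        _ = 8 * d * (1 / (1 + ‖a - z‖) ^ 2) := by field_simp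
    calc (analyticOrderNatAt Y a : ℝ) * (d / (‖a - z‖ * ‖w - a‖))
        ≤ (analyticOrderNatAt Y a : ℝ) * (8 * d * (1 / (1 + ‖a - z‖) ^ 2)) :=
          mul_le_mul_of_nonneg_left h6 (Nat.cast_nonneg _)
      _ = _ := by ring
  -- finiteness of the zeros in balls
  have hfinZ : ∀ ρ : ℝ, {a : ℂ | Y a = 0 ∧ ‖a - z‖ ≤ ρ}.Finite := by
    intro ρ
    have h1 := (logd_support (F := F) ρ).image fun u => u + z
    refine h1.subset ?_
    rintro a ⟨ha, har⟩
    refine ⟨a - z, ?_, sub_add_cancel _ _⟩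
    rw [Function.mem_support, logd_in hF hF0 (by rwa [mem_closedBall_zero_iff]), hord,
      sub_add_cancel]
    have h2 : analyticOrderAt Y a ≠ 0 := by
      rw [(hY.analyticAt a).analyticOrderAt_ne_zero]
      exact ha
    have h3 : analyticOrderAt Y a ≠ ⊤ := by
      intro h
      rw [analyticOrderAt_eq_top] at h
      have han : AnalyticOnNhd ℂ Y Set.univ := fun z _ => hY.analyticAt z
      exact hz (han.eqOn_zero_of_preconnected_of_eventuallyEq_zero isPreconnected_univ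
        (Set.mem_univ a) h (Set.mem_univ z))
    have h4 : analyticOrderNatAt Y a ≠ 0 := by
      intro h
      unfold analyticOrderNatAt at h
      rcases (ENat.toNat_eq_zero).1 h with h | h
      · exact h2 h
      · exact h3 h
    exact_mod_cast h4
  -- absolute convergence
  have hsummable : Summable fun a : {a : ℂ // Y a = 0} => g a := by
    obtain ⟨T, hT⟩ : ∃ T : Finset ℂ, T = (hfinZ (2 * d + 1)).toFinset := ⟨_, rfl⟩
    refine summable_of_sum_le (f := fun a : {a : ℂ // Y a = 0} => ‖g a‖)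
      (c := ∑ a ∈ T, ‖g a‖ + 8 * d * C) (fun _ => norm_nonneg _) (fun S => ?_) |>.of_norm
    have e : ∑ a ∈ S, ‖g (a : ℂ)‖ = ∑ a ∈ S.map (Function.Embedding.subtype _), ‖g a‖ := by
      rw [Finset.sum_map]
      rfl
    rw [e]
    set S' := S.map (Function.Embedding.subtype _) with hS'
    have hS'0 : ∀ a ∈ S', Y a = 0 := by
      intro a ha
      obtain ⟨b, _, rfl⟩ := Finset.mem_map.1 ha
      exact b.2
    rw [← Finset.sum_filter_add_sum_filter_not S' (fun a => ‖a - z‖ ≤ 2 * d + 1)]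
    apply add_le_add
    · refine Finset.sum_le_sum_of_subset_of_nonneg ?_ fun _ _ _ => norm_nonneg _
      intro a ha
      rw [Finset.mem_filter] at ha
      rw [hT, Set.Finite.mem_toFinset]
      exact ⟨hS'0 a ha.1, ha.2⟩
    · calc ∑ a ∈ S' with ¬‖a - z‖ ≤ 2 * d + 1, ‖g a‖
          ≤ ∑ a ∈ S' with ¬‖a - z‖ ≤ 2 * d + 1,
              (8 * d) * ((analyticOrderNatAt F (a - z) : ℝ) * (1 / (1 + ‖a - z‖) ^ 2)) := by
            refine Finset.sum_le_sum fun a ha => hterm a ?_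
            rw [Finset.mem_filter, not_le] at ha
            exact ha.2.le
        _ = 8 * d * ∑ u ∈ (S'.filter fun a => ¬‖a - z‖ ≤ 2 * d + 1).image (fun a => a - z),
              (analyticOrderNatAt F u : ℝ) * (1 / (1 + ‖u‖) ^ 2) := by
            rw [Finset.sum_image (fun a _ b _ h => sub_left_inj.1 h), Finset.mul_sum]
        _ ≤ 8 * d * C := mul_le_mul_of_nonneg_left (hC _) (by positivity)
  -- the partial sums over balls
  have key : Tendsto (fun ρ : ℕ => ∑ᶠ u, logd_D F ρ u * (1 / (0 - u) - 1 / (w - z - u))) atTop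
      (𝓝 (logDeriv Y z - logDeriv Y w)) := by
    rw [← tendsto_sub_nhds_zero_iff]
    have hlim := (logd_lim (K := K') (c := Real.log ‖F 0‖) (d := ‖(0 : ℂ) - (w - z)‖)).comp
      tendsto_natCast_atTop_atTop
    refine squeeze_zero_norm' ?_ hlim
    filter_upwards [eventually_ge_atTop (⌈8 * d⌉₊ + 1)] with n hn
    have hn1 : 8 * d ≤ n := (Nat.le_ceil _).trans (by exact_mod_cast (by omega : ⌈8 * d⌉₊ ≤ n))
    have hn0 : (0 : ℝ) < n := by exact_mod_cast (by omega : 0 < n)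
    have h1 := logd_finite hF hF0 (ρ := (n : ℝ)) (M := K' * (1 + 2 * n) ^ (3 / 2 : ℝ)) hn0
      (fun u hu => (hgr' u).trans (Real.exp_le_exp.2 (by
        rw [mem_closedBall_zero_iff] at hu
        gcongr))) (w := 0) (w' := w - z) (by rw [norm_zero]; positivity) (by rw [← hd]; linarith) hF0
      (by rw [hFdef]; simpa using hw)
    rw [hlog, hlog, zero_add, sub_add_cancel] at h1
    rw [norm_sub_rev]
    exact h1
  have key2 : Tendsto (fun ρ : ℕ => ∑ᶠ u, logd_D F ρ u * (1 / (0 - u) - 1 / (w - z - u))) atTop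
      (𝓝 (∑' a : {a : ℂ // Y a = 0}, g a)) := by
    -- the finite sets of zeros
    obtain ⟨Z, hZ⟩ : ∃ Z : ℕ → Finset {a : ℂ // Y a = 0}, ∀ n a, a ∈ Z n ↔ ‖(a : ℂ) - z‖ ≤ n := by
      refine ⟨fun n => ((hfinZ n).preimage (Subtype.val_injective.injOn)).toFinset, fun n a => ?_⟩
      rw [Set.Finite.mem_toFinset, Set.mem_preimage, Set.mem_ofPred_eq]
      exact ⟨fun h => h.2, fun h => ⟨a.2, h⟩⟩
    have hZt : Tendsto Z atTop atTop := by
      refine tendsto_atTop_finset_of_monotone ?_ ?_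
      · intro m n hmn a ha
        rw [hZ] at ha ⊢
        exact ha.trans (by exact_mod_cast hmn)
      · intro a
        obtain ⟨n, hn⟩ := exists_nat_ge ‖(a : ℂ) - z‖
        exact ⟨n, (hZ n a).2 hn⟩
    have h1 := hsummable.hasSum.comp hZt
    refine h1.congr fun n => ?_
    show ∑ a ∈ Z n, g a = _
    have e1 : ∑ a ∈ Z n, g (a : ℂ) = ∑ a ∈ (Z n).map (Function.Embedding.subtype _), g a := by
      rw [Finset.sum_map]
      rfl
    have e2 : ∑ a ∈ (Z n).map (Function.Embedding.subtype _), g a =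
        ∑ u ∈ ((Z n).map (Function.Embedding.subtype _)).image (fun a => a - z),
          logd_D F n u * (1 / (0 - u) - 1 / (w - z - u)) := by
      rw [Finset.sum_image (fun a _ b _ h => sub_left_inj.1 h)]
      refine Finset.sum_congr rfl fun a ha => ?_
      obtain ⟨b, hb, rfl⟩ := Finset.mem_map.1 ha
      have hb' : ‖(b : ℂ) - z‖ ≤ n := (hZ n b).1 hb
      show g (b : ℂ) = logd_D F n ((b : ℂ) - z) * _
      rw [logd_in hF hF0 (by rwa [mem_closedBall_zero_iff]), hord, sub_add_cancel, hg]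
      simp only
      have q1 : (0 : ℂ) - ((b : ℂ) - z) = z - b := by ring
      have q2 : w - z - ((b : ℂ) - z) = w - b := by ring
      show (analyticOrderNatAt Y (b : ℂ) : ℂ) * (1 / (z - b) - 1 / (w - b)) =
        (analyticOrderNatAt Y (b : ℂ) : ℂ) * (1 / (0 - ((b : ℂ) - z)) - 1 / (w - z - ((b : ℂ) - z)))
      rw [q1, q2]
    rw [e1, e2]
    symm
    apply finsum_eq_sum_of_support_subset
    intro u hu
    rw [Function.mem_support] at hu
    rw [Finset.mem_coe, Finset.mem_image]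
    have h2 : logd_D F n u ≠ 0 := fun h => hu (by rw [h, zero_mul])
    have h3 : u ∈ closedBall (0 : ℂ) (n : ℝ) := by
      by_contra h
      exact h2 (logd_out h)
    have h4 : Y (u + z) = 0 := by
      by_contra h
      apply h2
      rw [logd_in hF hF0 h3, hord]
      have : analyticOrderAt Y (u + z) = 0 := (hY.analyticAt _).analyticOrderAt_eq_zero.2 h
      unfold analyticOrderNatAt
      rw [this]
      simp
    refine ⟨u + z, Finset.mem_map.2 ⟨⟨u + z, h4⟩, ?_, rfl⟩, by ring⟩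
    rw [hZ]
    show ‖u + z - z‖ ≤ n
    rw [add_sub_cancel_right]
    rwa [mem_closedBall_zero_iff] at h3
  have huniq := tendsto_nhds_unique key2 key
  have := hsummable.hasSum
  rw [huniq, hg] at this
  exact this

end Pool.Agent.H862.VP
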