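import Pool.Graph.R_pool_sql_team_seeded_3dad9d7b.NH13.UV.Aq
import Pool.Graph.R_pool_sql_team_seeded_3dad9d7b.NH13.UV.Asm
import Pool.Graph.R_pool_sql_team_seeded_3dad9d7b.NH13.UV.Avg
import Pool.Graph.R_pool_sql_team_seeded_3dad9d7b.NH13.UV.Bd
import Pool.Graph.R_pool_sql_team_seeded_3dad9d7b.NH13.UV.Bp
import Pool.Graph.R_pool_sql_team_seeded_3dad9d7b.NH13.UV.Cond
import Pool.Graph.R_pool_sql_team_seeded_3dad9d7b.NH13.UV.Cv
import Pool.Graph.R_pool_sql_team_seeded_3dad9d7b.NH13.UV.Dbl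
import Pool.Graph.R_pool_sql_team_seeded_3dad9d7b.NH13.UV.Defs
import Pool.Graph.R_pool_sql_team_seeded_3dad9d7b.NH13.UV.Fa
import Pool.Graph.R_pool_sql_team_seeded_3dad9d7b.NH13.UV.Fn
import Pool.Graph.R_pool_sql_team_seeded_3dad9d7b.NH13.UV.GG
import Pool.Graph.R_pool_sql_team_seeded_3dad9d7b.NH13.UV.Gr1
import Pool.Graph.R_pool_sql_team_seeded_3dad9d7b.NH13.UV.HDq
import Pool.Graph.R_pool_sql_team_seeded_3dad9d7b.NH13.UV.HP
import Pool.Graph.R_pool_sql_team_seeded_3dad9d7b.NH13.UV.Imp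
import Pool.Graph.R_pool_sql_team_seeded_3dad9d7b.NH13.UV.K1
import Pool.Graph.R_pool_sql_team_seeded_3dad9d7b.NH13.UV.K2
import Pool.Graph.R_pool_sql_team_seeded_3dad9d7b.NH13.UV.K3
import Pool.Graph.R_pool_sql_team_seeded_3dad9d7b.NH13.UV.LDg
import Pool.Graph.R_pool_sql_team_seeded_3dad9d7b.NH13.UV.Low
import Pool.Graph.R_pool_sql_team_seeded_3dad9d7b.NH13.UV.Me
import Pool.Graph.R_pool_sql_team_seeded_3dad9d7b.NH13.UV.PP
import Pool.Graph.R_pool_sql_team_seeded_3dad9d7b.NH13.UV.PPn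
import Pool.Graph.R_pool_sql_team_seeded_3dad9d7b.NH13.UV.Pl
import Pool.Graph.R_pool_sql_team_seeded_3dad9d7b.NH13.UV.Pr
import Pool.Graph.R_pool_sql_team_seeded_3dad9d7b.NH13.UV.Pt
import Pool.Graph.R_pool_sql_team_seeded_3dad9d7b.NH13.UV.RHf
import Pool.Graph.R_pool_sql_team_seeded_3dad9d7b.NH13.UV.Rel
import Pool.Graph.R_pool_sql_team_seeded_3dad9d7b.NH13.UV.Rf
import Pool.Graph.R_pool_sql_team_seeded_3dad9d7b.NH13.UV.SZ
import Pool.Graph.R_pool_sql_team_seeded_3dad9d7b.NH13.UV.Sm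
import Pool.Graph.R_pool_sql_team_seeded_3dad9d7b.NH13.UV.Stm
import Pool.Graph.R_pool_sql_team_seeded_3dad9d7b.NH13.UV.T1
import Pool.Graph.R_pool_sql_team_seeded_3dad9d7b.NH13.UV.T2
import Pool.Graph.R_pool_sql_team_seeded_3dad9d7b.NH13.UV.T3
import Pool.Graph.R_pool_sql_team_seeded_3dad9d7b.NH13.UV.Vc
import Pool.Graph.R_pool_sql_team_seeded_3dad9d7b.NH13.UV.YH
import Pool.Graph.R_pool_sql_team_seeded_3dad9d7b.NH13.UV.YYd
import Pool.Graph.R_pool_sql_team_seeded_3dad9d7b.NH13.WV.AF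
import Pool.Graph.R_pool_sql_team_seeded_3dad9d7b.NH13.WV.AI
import Pool.Graph.R_pool_sql_team_seeded_3dad9d7b.NH13.WV.AbI
import Pool.Graph.R_pool_sql_team_seeded_3dad9d7b.NH13.WV.Asm
import Pool.Graph.R_pool_sql_team_seeded_3dad9d7b.NH13.WV.Asm2
import Pool.Graph.R_pool_sql_team_seeded_3dad9d7b.NH13.WV.Asm3
import Pool.Graph.R_pool_sql_team_seeded_3dad9d7b.NH13.WV.BZ
import Pool.Graph.R_pool_sql_team_seeded_3dad9d7b.NH13.WV.Bad
import Pool.Graph.R_pool_sql_team_seeded_3dad9d7b.NH13.WV.Cau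
import Pool.Graph.R_pool_sql_team_seeded_3dad9d7b.NH13.WV.Cnt
import Pool.Graph.R_pool_sql_team_seeded_3dad9d7b.NH13.WV.Comp
import Pool.Graph.R_pool_sql_team_seeded_3dad9d7b.NH13.WV.Cpa
import Pool.Graph.R_pool_sql_team_seeded_3dad9d7b.NH13.WV.Cpb
import Pool.Graph.R_pool_sql_team_seeded_3dad9d7b.NH13.WV.Fa
import Pool.Graph.R_pool_sql_team_seeded_3dad9d7b.NH13.WV.Fi
import Pool.Graph.R_pool_sql_team_seeded_3dad9d7b.NH13.WV.FinA
import Pool.Graph.R_pool_sql_team_seeded_3dad9d7b.NH13.WV.HDx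
import Pool.Graph.R_pool_sql_team_seeded_3dad9d7b.NH13.WV.IrP
import Pool.Graph.R_pool_sql_team_seeded_3dad9d7b.NH13.WV.K2f
import Pool.Graph.R_pool_sql_team_seeded_3dad9d7b.NH13.WV.K2n
import Pool.Graph.R_pool_sql_team_seeded_3dad9d7b.NH13.WV.Lg
import Pool.Graph.R_pool_sql_team_seeded_3dad9d7b.NH13.WV.LowN
import Pool.Graph.R_pool_sql_team_seeded_3dad9d7b.NH13.WV.Mono
import Pool.Graph.R_pool_sql_team_seeded_3dad9d7b.NH13.WV.Mu
import Pool.Graph.R_pool_sql_team_seeded_3dad9d7b.NH13.WV.N0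
import Pool.Graph.R_pool_sql_team_seeded_3dad9d7b.NH13.WV.N1u
import Pool.Graph.R_pool_sql_team_seeded_3dad9d7b.NH13.WV.Nb
import Pool.Graph.R_pool_sql_team_seeded_3dad9d7b.NH13.WV.Nl
import Pool.Graph.R_pool_sql_team_seeded_3dad9d7b.NH13.WV.Nr
import Pool.Graph.R_pool_sql_team_seeded_3dad9d7b.NH13.WV.One
import Pool.Graph.R_pool_sql_team_seeded_3dad9d7b.NH13.WV.PN
import Pool.Graph.R_pool_sql_team_seeded_3dad9d7b.NH13.WV.PWb
import Pool.Graph.R_pool_sql_team_seeded_3dad9d7b.NH13.WV.Par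
import Pool.Graph.R_pool_sql_team_seeded_3dad9d7b.NH13.WV.S2
import Pool.Graph.R_pool_sql_team_seeded_3dad9d7b.NH13.WV.S2a
import Pool.Graph.R_pool_sql_team_seeded_3dad9d7b.NH13.WV.S2b
import Pool.Graph.R_pool_sql_team_seeded_3dad9d7b.NH13.WV.SZ2
import Pool.Graph.R_pool_sql_team_seeded_3dad9d7b.NH13.WV.Simple
import Pool.Graph.R_pool_sql_team_seeded_3dad9d7b.NH13.WV.Stm
import Pool.Graph.R_pool_sql_team_seeded_3dad9d7b.NH13.WV.Stm2
import Pool.Graph.R_pool_sql_team_seeded_3dad9d7b.NH13.WV.Stm3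
import Pool.Graph.R_pool_sql_team_seeded_3dad9d7b.NH13.WV.Stm4
import Pool.Graph.R_pool_sql_team_seeded_3dad9d7b.NH13.WV.Stm5
import Pool.Graph.R_pool_sql_team_seeded_3dad9d7b.NH13.WV.Sub
import Pool.Graph.R_pool_sql_team_seeded_3dad9d7b.NH13.WV.TA
import Pool.Graph.R_pool_sql_team_seeded_3dad9d7b.NH13.WV.TB
import Pool.Graph.R_pool_sql_team_seeded_3dad9d7b.NH13.WV.TBw
import Pool.Graph.R_pool_sql_team_seeded_3dad9d7b.NH13.WV.Tail
import Pool.Graph.R_pool_sql_team_seeded_3dad9d7b.NH13.WV.Unif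
import Pool.Graph.R_pool_sql_team_seeded_3dad9d7b.NH13.WV.Wei
import Pool.Graph.R_pool_sql_team_seeded_3dad9d7b.NH13.WV.Ws
import Pool.Graph.R_pool_sql_team_seeded_3dad9d7b.NH13.WV.ZIa
import Pool.Graph.R_pool_sql_team_seeded_3dad9d7b.NH13.WV.ZIb
import Pool.Agent.H862.VP.PFC
import Pool.Agent.H862.VK.Koch

/-!
# Assembly of the projects UV and WV of the library (run seeded_3dad9d7b, folder NH13)

With `t_PFC` (partial fractions) and `von_koch` (von Koch's theorem) all the hypotheses of the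
final theorems of the two projects are available.
-/

set_option autoImplicit false

open Complex MeasureTheory Filter Topology Set

namespace Pool.Agent.H862.VP.All

open Pool.Agent.NH13.UV Pool.Agent.NH13.WV

theorem cv : S_cv := t_cv
theorem fam : S_fam := t_fam t_small
theorem K1 : S_K1 := t_K1 t_gr t_HP
theorem K2 : S_K2 := t_K2 t_SZ
theorem K3 : S_K3 := t_K3
theorem HDq' : S_HDq := t_HDq (t_Y t_PFC) t_YYd t_LD
theorem pt' : S_pt := t_pt t_YYd t_LD t_imp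
theorem Bp' : S_Bp := t_Bp t_YYd pt' t_cond t_avg
theorem A' : S_A := t_A K1 Bp'
theorem Pl' : S_Pl := t_Pl t_Me
theorem rel : S_rel := t_rel A' Pl' t_Me pt' t_cond HDq' K1
theorem low : S_low := t_low K2 K1 Bp' t_Me HDq'
theorem dbl : S_dbl := t_dbl K3 K1 HDq'
theorem GG' : S_GG := t_GG t_V t_prin
theorem P' : S_P := t_P rel low GG'
theorem bd : S_bd := t_bd rel dbl GG' cv fam
theorem fin' : S_fin := t_fin t_ref
theorem hpsi : RiemannHypothesis → PsiB := Pool.Agent.H862.VK.von_koch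

/-- the lower bound, the one-sided criterion, the Abel means, and GRH -/
theorem mainUV :
    (∀ δ ε : ℝ, 0 < δ → 0 < ε → ∀ᶠ q : ℕ in atTop, ENNReal.ofReal (1 - δ - ε) ≤ Mv q δ) ∧
    (Asy ↔ Upp) ∧ (Asy ↔ Abe) ∧ (Asy → GRHall) :=
  Pool.Agent.NH13.UV.Asm.main cv fam bd t_Me GG' t_RH hpsi fin' P' t_T1 t_T2 t_T3

/-! ### WV -/

theorem HDx' : S_HDx := t_HDx t_PFC t_YYd t_LD
theorem cnt : S_cnt := t_cnt HDx' t_LD t_YYd
theorem nr : S_nr := t_nr cnt t_mu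
theorem ws : S_ws := t_ws cnt
theorem PWb' : S_PWb := t_PWb nr ws
theorem sub : S_sub := t_sub nr PWb' t_mu
theorem cau : S_cau := t_cau t_HP
theorem S2a' : S_S2a := t_S2a HDx' cnt ws cau
theorem S2b' : S_S2b := t_S2b HDx' cnt ws
theorem S2' : S_S2 := t_S2 S2a' S2b' K1 HDx'
theorem par : S_par := t_par cnt nr ws PWb'
theorem IrP' : S_IrP := t_IrP S2' par
theorem mono : S_mono := t_mono nr PWb' par
theorem unif : S_unif := t_unif sub PWb' mono
theorem TA' : S_TA := t_TA t_nl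
theorem TB' : S_TB := t_TB (t_TBw t_Wei t_nl) t_nl
theorem comp : S_comp := t_comp (t_cpa t_nl) t_cpb
theorem Lg' : S_Lg := t_Lg HDx' t_gr pt' HDq'
theorem Fa' : S_Fa := t_Fa Lg'
theorem Fi' : S_Fi := t_Fi Pl' Fa'
theorem AF' : S_AF := t_AF Fi' t_V
theorem AI' : S_AI := t_AI rel GG'

/-- the asymptotic formula and the pair correlation of the zeros -/
theorem mainWV : Asy ↔ GRHall ∧ PCF :=
  Pool.Agent.NH13.WV.Asm.main AI' IrP' TA' TB' comp mono unif AF' fin' t_Me GG' t_RH hpsi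
    mainUV.2.2.1 mainUV.2.2.2

theorem tail : S_tail := t_tail rel GG' cv fam bd
theorem nb : S_nb := t_nb tail IrP' mono
theorem one : S_one := t_one t_nl

theorem mainWV2 : (Asy ↔ GRHall ∧ PCU) ∧ (Asy ↔ GRHall ∧ PCL) :=
  Pool.Agent.NH13.WV.Asm.main2 IrP' tail comp mono unif nb one AF' hpsi mainWV

theorem finA' : S_finA := t_finA t_ref
theorem AbI' : S_AbI := t_AbI rel GG'
theorem n0 : S_n0 := t_n0 HDx' Bp' ws nr PWb' t_mu
theorem ZIa' : S_ZIa := t_ZIa IrP' mono n0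
theorem ZIb' : S_ZIb := t_ZIb IrP' mono unif

theorem mainWV3 : AbU ↔ GRHall ∧ ES :=
  Pool.Agent.NH13.WV.Asm.main3 finA' t_Me GG' t_RH hpsi AbI' ZIa' ZIb' AF' nb

theorem N1' : S_N1 := t_N1 HDx' Bp' ws

theorem simple : GRH1 → ES → AS := t_simple PWb' t_mu nr mono N1'

theorem SZ2' : S_SZ2 := t_SZ2 t_HP t_SZ
theorem K2f' : S_K2f := t_K2f SZ2' HDx' K1 nr
theorem K2n' : S_K2n := t_K2n K2f' nr PWb'
theorem lowN' : S_lowN := t_lowN K2n' t_Me
theorem PN' : S_PN := t_PN rel lowN' GG'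
theorem N1u' : S_N1u := t_N1u HDx' Bp' t_Me ws
theorem bad' : S_bad := t_bad HDx' t_mu nr PWb'

/-- the primes see the bad zeros -/
theorem BZ' : S_BZ := t_BZ PN' N1u' bad' GG' ws

end Pool.Agent.H862.VP.All
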